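import Pool.Agent.H68.GHK.Defs

/-!
Targets of the board ghk (MP_52e316_nt): the hybrid fourth moment over representations.
-/

set_option autoImplicit false

namespace Pool.Agent.H68.GHK

open MeasureTheory Pool.Agent.H34.GM Pool.Agent.H34.GZ Pool.Agent.H34.GU Pool.Agent.H34.GA
  Pool.Agent.H68.GHY Pool.Agent.H34.GHY

/-! ### group A: translates and the large sieve with weights -/

/-- the scalar product and the translates -/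
def T_IPT : Prop := ∀ (m N : ℕ) [NeZero N] (T : ℕ → Finset (ZM m)) (D : Set (V m)),
  SysZ m N T D → ∀ (F G : Mat m → VN m N → ℂ) (lam lam' : ℕ → ℂ), HecA m N T F lam →
  HecA m N T G lam' →
  (∀ w : Mat m, w.det ≠ 0 → HecA m N T (rt w F) lam ∧ nU D (rt w F) = nU D F ∧
    ip D (rt w F) (rt w G) = ip D F G) ∧
  ‖ip D F G‖ ^ 2 ≤ nU D F * nU D G ∧ ip D F F = (nU D F : ℂ) ∧
  ip D G F = (starRingEnd ℂ) (ip D F G) ∧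
  ContinuousOn (fun p : V m × V m => ip D (rt (mt p.1) F) (rt (mt p.2) G))
    {p | (mt p.1).det ≠ 0 ∧ (mt p.2).det ≠ 0}

/-- small translates of a cusp form -/
def T_TRF : Prop := ∀ m : ℕ, 1 ≤ m → ∃ C : ℝ, 1 ≤ C ∧
  ∀ (N : ℕ) [NeZero N] (T : ℕ → Finset (ZM m)) (D : Set (V m)), SysZ m N T D →
  ∀ (F : Mat m → VN m N → ℂ) (lam : ℕ → ℂ) (P : ℝ), CusB m N T F lam → nU D F = 1 →
  Lip D F P → 0 ≤ P → ∀ u : Mat m, 16 * m * sz (u - 1) ≤ 1 →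
    CusB m N T (rt u F) lam ∧ nU D (rt u F) = 1 ∧ Lip D (rt u F) (C * (1 + P))

/-- the scalar products of the convolutions of the translates -/
def T_RRT : Prop := ∀ (m N : ℕ) [NeZero N] (T : ℕ → Finset (ZM m)) (D : Set (V m)),
  SysZ m N T D → ∀ (F : Mat m → VN m N → ℂ) (lam : ℕ → ℂ), HecA m N T F lam →
  ∀ k : Mat m → ℂ, Tg m k → ∀ u u' : Mat m, u.det ≠ 0 → u'.det ≠ 0 →
    ip D (Rr k 1 (rt u F)) (Rr k 1 (rt u' F)) =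
      ∫ z in Shell m, ∫ z' in Shell m, k ((aN (mt z))⁻¹ • mt z) *
        (starRingEnd ℂ) (k ((aN (mt z'))⁻¹ • mt z')) *
        ip D (rt ((mt z)⁻¹ * u) F) (rt ((mt z')⁻¹ * u') F) ∂(hm m) ∂(hm m)

/-- the diagonal terms -/
def T_QBD : Prop := ∀ (m : ℕ) (χ : ℝ → ℝ) (r : ℝ), 1 ≤ m → Prof χ → 0 < r →
  ∃ c C : ℝ, 0 < c ∧ 0 < C ∧
  ∀ (N : ℕ) [NeZero N] (T : ℕ → Finset (ZM m)) (D : Set (V m)), SysZ m N T D →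
  ∀ (F : Mat m → VN m N → ℂ) (lam : ℕ → ℂ), HecA m N T F lam → nU D F = 1 →
  ∀ r0 δ : ℝ, 0 < r0 → r0 ≤ c → 0 < δ → δ ≤ c →
    ‖∫ u in Bn m r0, ∫ u' in Bn m r0, ip D (rt (mt u) F) (rt (mt u') F) *
      (starRingEnd ℂ) (ip D (Rr (bi m χ δ) 1 (rt (mt u) F)) (Rr (bi m χ δ) 1 (rt (mt u') F)))‖ ≤
      C * tb m χ δ ^ 2 * Hn r D F

/-- the sieve inequality for forms which generate orthogonal spaces -/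
def T_LSK : Prop := ∀ (m : ℕ) (χ : ℝ → ℝ) (r : ℝ), 1 ≤ m → Prof χ → 0 < r →
  ∃ (c C : ℝ) (A : ℕ), 0 < c ∧ 1 ≤ C ∧
  ∀ (N : ℕ) [NeZero N] (T : ℕ → Finset (ZM m)) (D : Set (V m)), SysZ m N T D →
  ∀ (ι : Type) [Fintype ι] [DecidableEq ι] (F : ι → Mat m → VN m N → ℂ)
    (lam : ι → ℕ → ℂ) (P : ι → ℝ),
  (∀ i, CusB m N T (F i) (lam i) ∧ Lip D (F i) (P i) ∧ 0 ≤ P i) → OrS D F →
  ∀ δ : ℝ, 0 < δ → δ ≤ 1 / 2 → (∀ i, δ * (1 + P i) ≤ c) →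
  ∀ (y : ℝ) (a : ℕ → ℂ) (x0 Y : ℝ), 1 ≤ y → Coe y a → 0 < x0 → C * N * δ⁻¹ ^ A ≤ Y →
    ENNReal.ofReal (tb m χ δ ^ 2) *
      ∑ i, ENNReal.ofReal (‖Bs m (lam i) a y δ x0‖ ^ 2 * (Hn r D (F i))⁻¹) ≤
      ENNReal.ofReal C * ∫⁻ g in DY D Y, Ed N D δ y x0 (mt g) ∂(hm m)

/-- the large sieve for the short sums, with the weights -/
def T_LSH : Prop := ∀ m : ℕ, 1 ≤ m → ∀ r ε : ℝ, 0 < r → 0 < ε → ∃ (c C : ℝ) (K : ℕ), 0 < c ∧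
  0 < C ∧ ∀ (N : ℕ) [NeZero N] (T : ℕ → Finset (ZM m)) (D : Set (V m)), SysZ m N T D →
  ∀ (ι : Type) [Fintype ι] [DecidableEq ι] (F : ι → Mat m → VN m N → ℂ)
    (lam : ι → ℕ → ℂ) (P : ι → ℝ),
  (∀ i, CusB m N T (F i) (lam i) ∧ Lip D (F i) (P i) ∧ 0 ≤ P i) →
  OrS D F → ∀ δ : ℝ, 0 < δ → δ ≤ 1 / 2 → (∀ i, δ * (1 + P i) ≤ c) →
  ∀ (y : ℝ) (a : ℕ → ℂ), 1 ≤ y → Coe y a →
    ∑ i, ENNReal.ofReal (Hn r D (F i))⁻¹ *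
      ∫⁻ x0 in Set.Ioi (0 : ℝ), ENNReal.ofReal (‖Bs m (lam i) a y δ x0‖ ^ 2 * x0⁻¹) ≤
      ENNReal.ofReal (C * δ ^ 2 * δ⁻¹ ^ (m ^ 2) * (N : ℝ) ^ ((m : ℝ) + ε) *
        (1 + Real.log (y * N * δ⁻¹)) ^ K * y ^ (2 * m) * (1 + δ ^ m * y ^ 2 / N) ^ m)

/-- the fourth moment of the Dirichlet polynomials, with the weights -/
def T_LTH : Prop := ∀ m : ℕ, 1 ≤ m → ∀ r ε : ℝ, 0 < r → 0 < ε → ∃ (c C : ℝ) (K : ℕ), 0 < c ∧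
  0 < C ∧ ∀ (N : ℕ) [NeZero N] (T : ℕ → Finset (ZM m)) (D : Set (V m)), SysZ m N T D →
  ∀ (ι : Type) [Fintype ι] [DecidableEq ι] (F : ι → Mat m → VN m N → ℂ)
    (lam : ι → ℕ → ℂ) (P : ι → ℝ),
  (∀ i, CusB m N T (F i) (lam i) ∧ Lip D (F i) (P i) ∧ 0 ≤ P i) →
  OrS D F → ∀ δ : ℝ, 0 < δ → δ ≤ 1 / 2 → (∀ i, δ * (1 + P i) ≤ c) →
  ∀ (y : ℝ) (a : ℕ → ℂ), 1 ≤ y → Coe y a →
    ∑ i, ENNReal.ofReal (Hn r D (F i))⁻¹ *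
      ∫⁻ t in Set.Icc (-δ⁻¹) δ⁻¹, ENNReal.ofReal (‖DP m (lam i) a y t‖ ^ 4) ≤
      ENNReal.ofReal (C * δ⁻¹ ^ (m ^ 2) * (N : ℝ) ^ ((m : ℝ) + ε) *
        (1 + Real.log (y * N * δ⁻¹)) ^ K * y ^ (2 * m) * (1 + δ ^ m * y ^ 2 / N) ^ m)

/-- the size of the family, with the weights -/
def T_CRH : Prop := ∀ m : ℕ, 1 ≤ m → ∀ r ε : ℝ, 0 < r → 0 < ε → ∃ c C : ℝ, 0 < c ∧ 0 < C ∧
  ∀ (N : ℕ) [NeZero N] (T : ℕ → Finset (ZM m)) (D : Set (V m)), SysZ m N T D →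
  ∀ (ι : Type) [Fintype ι] [DecidableEq ι] (F : ι → Mat m → VN m N → ℂ)
    (lam : ι → ℕ → ℂ) (P : ι → ℝ),
  (∀ i, CusB m N T (F i) (lam i) ∧ Lip D (F i) (P i) ∧ 0 ≤ P i) →
  OrS D F → ∀ δ : ℝ, 0 < δ → δ ≤ 1 / 2 → (∀ i, δ * (1 + P i) ≤ c) →
    (∑ i, (Hn r D (F i))⁻¹) * δ⁻¹ ≤
      C * ((N : ℝ) * δ⁻¹) ^ ε * (N : ℝ) ^ m * δ⁻¹ ^ (m ^ 2)

/-- the fourth moment of the truncated L-function, with the weights -/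
def T_DYH : Prop := ∀ m : ℕ, 1 ≤ m → ∀ r ε A : ℝ, 0 < r → 0 < ε → 1 ≤ A →
  ∃ c C : ℝ, 0 < c ∧ 0 < C ∧
  ∀ (N : ℕ) [NeZero N] (T : ℕ → Finset (ZM m)) (D : Set (V m)), SysZ m N T D →
  ∀ (ι : Type) [Fintype ι] [DecidableEq ι] (F : ι → Mat m → VN m N → ℂ)
    (lam : ι → ℕ → ℂ) (P : ι → ℝ),
  (∀ i, CusB m N T (F i) (lam i) ∧ Lip D (F i) (P i) ∧ 0 ≤ P i) →
  OrS D F → ∀ δ : ℝ, 0 < δ → δ ≤ 1 / 2 → (∀ i, δ * (1 + P i) ≤ c) →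
  ∀ X : ℝ, 1 ≤ X →
    X ≤ A * ((N : ℝ) ^ ((1 : ℝ) / 2) * δ⁻¹ ^ ((m : ℝ) / 2)) * ((N : ℝ) * δ⁻¹) ^ ε →
  ∀ τ : ℝ,
    ∑ i, ENNReal.ofReal (Hn r D (F i))⁻¹ *
      ∫⁻ t in Set.Icc (-δ⁻¹) δ⁻¹, ENNReal.ofReal (‖SD (lam i) X (t + τ)‖ ^ 4) ≤
      ENNReal.ofReal (C * ((N : ℝ) * δ⁻¹) ^ ((2 * m + 4) * ε) * (N : ℝ) ^ m * δ⁻¹ ^ (m ^ 2))

/-- the hybrid fourth moment at well spaced points, with the weights -/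
def T_GBH : Prop := ∀ m : ℕ, 1 ≤ m → ∀ r ε : ℝ, 0 < r → 0 < ε → ∃ C : ℝ, 0 < C ∧
  ∀ (N : ℕ) [NeZero N] (T : ℕ → Finset (ZM m)) (D : Set (V m)), SysZ m N T D →
  ∀ P : ℝ, 1 ≤ P → ∀ (ι : Type) [Fintype ι] [DecidableEq ι] (F : ι → Mat m → VN m N → ℂ)
    (lam : ι → ℕ → ℂ),
    (∀ i, CusB m N T (F i) (lam i) ∧ Lip D (F i) P) → OrS D F →
    ∃ L : ι → ℂ → ℂ, (∀ i, IsL m 1 (lam i) (L i)) ∧
      ∀ J : ι → Finset ℝ, (∀ i, Wsp (J i)) → (∀ i, ∀ t ∈ J i, |t| ≤ P) →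
      ∑ i, (Hn r D (F i))⁻¹ * ∑ t ∈ J i, ‖L i (1 / 2 + t * Complex.I)‖ ^ 4 ≤
        C * ((N : ℝ) * P) ^ ε * (N : ℝ) ^ m * P ^ (m ^ 2)

/-- orthogonal spherical forms generate orthogonal spaces -/
def T_ORS : Prop := ∀ (m N : ℕ) [NeZero N] (T : ℕ → Finset (ZM m)) (D : Set (V m)),
  SysZ m N T D → ∀ (ι : Type) [Fintype ι] [DecidableEq ι] (F : ι → Mat m → VN m N → ℂ)
    (lam : ι → ℕ → ℂ) (mu : ι → Fin m → ℂ), (∀ i, CuspU m N T (F i) (lam i) (mu i)) →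
  Orthn D F → OrS D F

/-! ### group B: the matrix coefficient of a spherical form -/

/-- densities exist -/
def T_KAP : Prop := ∀ m : ℕ, 1 ≤ m → ∃ κ : Mat m → ℝ, Kap m κ

/-- the matrix coefficient of a spherical form is the spherical function -/
def T_PHK : Prop := ∀ (m : ℕ) (κ : Mat m → ℝ), 1 ≤ m → Kap m κ →
  ∀ (N : ℕ) [NeZero N] (T : ℕ → Finset (ZM m)) (D : Set (V m)), SysZ m N T D →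
  ∀ (F : Mat m → VN m N → ℂ) (lam : ℕ → ℂ) (mu : Fin m → ℂ), CuspU m N T F lam mu →
  nU D F = 1 → ∀ z : Mat m, z.det ≠ 0 →
    ip D (rt z⁻¹ F) F = ∫ w : V m, (κ (mt w) : ℂ) * (pw mu (z * mt w) / pw mu (mt w))

/-- the projections of a flag -/
def T_FLG : Prop := ∀ (m : ℕ) (w : Mat m), w.det ≠ 0 →
  (∀ j : ℕ, j ≤ m → Prj (EP j w) ∧ (EP j w).trace = j ∧ (∀ i : ℕ, i ≤ j → EP i w * EP j w = EP i w) ∧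
    0 < mnr w j ∧ ∀ z : V m, mnr (mt z * w) j =
      mnr w j * (EP j w * ((mt z).transpose * mt z) * EP j w + 1 - EP j w).det) ∧
  ∀ w' : Mat m, w'.det ≠ 0 → ∀ i j : ℕ, i ≤ m → j ≤ m →
    0 ≤ (EP i w * EP j w').trace ∧ (EP i w * EP j w').trace ≤ i ∧ (EP i w * EP j w').trace ≤ j

/-- the logarithms of the minors near `1` -/
def T_DLT : Prop := ∀ m : ℕ, 1 ≤ m → ∃ r : ℝ, 0 < r ∧ r ≤ 1 / 2 ∧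
  (∀ E : Mat m, Prj E → (∀ z : V m, sz (mt z - 1) < r →
    0 < (E * ((mt z).transpose * mt z) * E + 1 - E).det) ∧
    ContDiffOn ℝ ((⊤ : ℕ∞) : WithTop ℕ∞) (FE E) {z | sz (mt z - 1) < r} ∧
    ∀ X : V m, fderiv ℝ (FE E) ((fun i j => (1 : Mat m) i j) : V m) X = 2 * (E * mt X).trace) ∧
  ∀ K : ℕ, ∃ C : ℝ, 0 < C ∧ ∀ k : ℕ, k ≤ K → ∀ E E' : Mat m, Prj E → Prj E' → ∀ z : V m,
    sz (mt z - 1) < r → ‖iteratedFDeriv ℝ k (FE E) z‖ ≤ C ∧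
      ‖iteratedFDeriv ℝ k (fun z => FE E z - FE E' z) z‖ ≤ C * sz (E - E')

/-- the gradient of the phase -/
def T_GRD : Prop := ∀ m : ℕ, 1 ≤ m → ∃ c : ℝ, 0 < c ∧ ∀ w w' : Mat m, w.det ≠ 0 → w'.det ≠ 0 →
  ∀ β : ℕ → ℝ, (∀ j, 0 ≤ β j) → ∃ X : V m, sz (mt X) ≤ 1 ∧
    c * ∑ j ∈ Finset.range m, β j * sz (EP j w - EP j w') ≤
      ∑ j ∈ Finset.range m, β j * ((EP j w - EP j w') * mt X).trace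

open Classical in
/-- non stationary phase in one variable -/
def T_NSP : Prop := ∀ (N : ℕ) (A c : ℝ), 0 < c → ∃ C : ℝ, 0 < C ∧
  ∀ (h : ℝ → ℂ) (Ψ : ℝ → ℝ) (G : ℝ), 0 ≤ G → ContDiff ℝ ((⊤ : ℕ∞) : WithTop ℕ∞) h →
  ContDiffOn ℝ ((⊤ : ℕ∞) : WithTop ℕ∞) Ψ (Set.Ioo (-2) 2) → (∀ s, 1 ≤ |s| → h s = 0) →
  (∀ k ≤ N, ∀ s : ℝ, |s| < 2 → ‖iteratedDeriv k h s‖ ≤ A) →
  (∀ s : ℝ, |s| < 2 → c * G ≤ |deriv Ψ s|) →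
  (∀ k ≤ N, ∀ s : ℝ, |s| < 2 → |iteratedDeriv (k + 1) Ψ s| ≤ A * G) →
    ‖∫ s : ℝ, h s * Complex.exp (Complex.I * (Ψ s : ℂ))‖ ≤ C * ((1 + G) ^ N)⁻¹

/-- the power function as a product over the minors -/
def T_PWQ : Prop := ∀ (m : ℕ) (mu : Fin m → ℂ) (w : Mat m) (z : V m), 1 ≤ m → w.det ≠ 0 →
  (mt z).det ≠ 0 →
    pw mu (mt z * w) / pw mu w =
      Complex.exp (∑ j : Fin m, ((-(mu j) + (2 * ((j : ℕ) + 1 : ℂ) - m - 1) / 2) / 2) *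
        ((FE (EP ((j : ℕ) + 1) w) z - FE (EP (j : ℕ) w) z : ℝ) : ℂ))

/-- the oscillating integral -/
def T_JKF : Prop := ∀ (m : ℕ) (χ : ℝ → ℝ), 1 ≤ m → Prof χ → ∃ ρ : ℝ, 0 < ρ ∧ ρ ≤ 1 / 2 ∧
  ∀ (A : ℕ) (M : ℝ), ∃ C : ℝ, 0 < C ∧ ∀ mu : Fin m → ℂ, (∀ j, |(mu j).re| ≤ M) →
  Monotone (fun j => (mu j).im) → ∀ w w' : Mat m, w.det ≠ 0 → w'.det ≠ 0 →
    ‖∫ z : V m, bi m χ ρ (mt z) * ((pw mu (mt z * w) / pw mu w) *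
      (starRingEnd ℂ) (pw mu (mt z * w') / pw mu w'))‖ ≤ C * ((1 + Gg mu w w') ^ A)⁻¹

/-- the volume -/
def T_VOK : Prop := ∀ (m : ℕ) (κ : Mat m → ℝ), 1 ≤ m → Kap m κ → ∃ (A : ℕ) (C : ℝ), 0 < C ∧
  ∀ mu : Fin m → ℂ, Monotone (fun j => (mu j).im) → ∀ w : Mat m, w.det ≠ 0 →
    ∫⁻ w' : V m, ENNReal.ofReal (κ (mt w') * ((1 + Gg mu w (mt w')) ^ A)⁻¹) ≤
      ENNReal.ofReal (C / Wt mu)

/-- the matrix coefficient near `1` -/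
def T_HKW : Prop := ∀ m : ℕ, 1 ≤ m → ∃ r : ℝ, 0 < r ∧ ∀ M : ℝ, ∃ C : ℝ, 0 < C ∧
  ∀ (N : ℕ) [NeZero N] (T : ℕ → Finset (ZM m)) (D : Set (V m)), SysZ m N T D →
  ∀ (F : Mat m → VN m N → ℂ) (lam : ℕ → ℂ) (mu : Fin m → ℂ), CuspU m N T F lam mu →
  nU D F = 1 → (∀ j, |(mu j).re| ≤ M) → Monotone (fun j => (mu j).im) →
    Hn r D F ≤ C / Wt mu ∧ 0 < Hn r D F

/-- the hybrid fourth moment over the spherical forms, with the Plancherel density -/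
def T_GBP : Prop := ∀ m : ℕ, 1 ≤ m → ∀ ε : ℝ, 0 < ε → ∃ C : ℝ, 0 < C ∧
  ∀ (N : ℕ) [NeZero N] (T : ℕ → Finset (ZM m)) (D : Set (V m)), SysZ m N T D →
  ∀ P : ℝ, 1 ≤ P → ∀ (ι : Type) [Fintype ι] [DecidableEq ι] (F : ι → Mat m → VN m N → ℂ)
    (lam : ι → ℕ → ℂ) (mu : ι → Fin m → ℂ),
    (∀ i, CuspU m N T (F i) (lam i) (mu i) ∧ 1 + ∑ j, ‖mu i j‖ ≤ P ∧
      Monotone (fun j => (mu i j).im)) → Orthn D F →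
    ∃ L : ι → ℂ → ℂ, (∀ i, IsL m 1 (lam i) (L i)) ∧
      ∀ J : ι → Finset ℝ, (∀ i, Wsp (J i)) → (∀ i, ∀ t ∈ J i, |t| ≤ P) →
      ∑ i, Wt (mu i) * ∑ t ∈ J i, ‖L i (1 / 2 + t * Complex.I)‖ ^ 4 ≤
        C * ((N : ℝ) * P) ^ ε * (N : ℝ) ^ m * P ^ (m ^ 2)

end Pool.Agent.H68.GHK
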