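import Pool.Agent.H68.GHY.UNV

/-!
Board ghk: the sum over the universal family, ordered by the conductor, the size at infinity and the
weight.
-/

set_option autoImplicit false

namespace Pool.Agent.H68.GHK

open Pool.Agent.H68.GHY (log_le_pow block_ex)

/-- the index of a dyadic block -/
lemma blk_lt {p X : ℝ} {B k : ℕ} (hX : 1 ≤ X) (hk : (2 : ℝ) ^ k / 2 < p) (hp : p ≤ X ^ B) :
    k < ⌊(B : ℝ) * (2 * Real.log X)⌋₊ + 2 := by
  have hX0 : 0 < X := by linarith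
  have hl2 : (1 / 2 : ℝ) < Real.log 2 := by
    have := Real.log_two_gt_d9
    linarith
  have hlX : 0 ≤ Real.log X := Real.log_nonneg hX
  have h1 : Real.log ((2 : ℝ) ^ k / 2) < Real.log (X ^ B) :=
    Real.log_lt_log (by positivity) (hk.trans_le hp)
  rw [Real.log_div (by positivity) (by norm_num), Real.log_pow, Real.log_pow] at h1
  have h2 : (k : ℝ) - 1 < (B : ℝ) * (2 * Real.log X) := by
    by_contra hc
    push Not at hc
    have hB : (0 : ℝ) ≤ (B : ℝ) * Real.log X := by positivity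
    have h3 : 0 ≤ (k : ℝ) - 1 := by
      have : (0 : ℝ) ≤ (B : ℝ) * (2 * Real.log X) := by positivity
      linarith
    have h4 : ((k : ℝ) - 1) * (1 / 2) ≤ ((k : ℝ) - 1) * Real.log 2 :=
      mul_le_mul_of_nonneg_left hl2.le h3
    nlinarith
  have h6 : (B : ℝ) * (2 * Real.log X) < (⌊(B : ℝ) * (2 * Real.log X)⌋₊ : ℝ) + 1 :=
    Nat.lt_floor_add_one _
  have h7 : (k : ℝ) < ((⌊(B : ℝ) * (2 * Real.log X)⌋₊ + 2 : ℕ) : ℝ) := by
    push_cast
    linarith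
  exact_mod_cast h7

/-- the size is bounded -/
lemma size_le {m N : ℕ} (hm : 1 ≤ m) (hN : 1 ≤ N) {p w X : ℝ} (hX : 1 ≤ X) (hp : 1 ≤ p)
    (hw : w ≤ p ^ (m * (m - 1) / 2))
    (h : (N : ℝ) ^ (m + 1) * p ^ (m ^ 2) ≤ w * X ^ (m + 1)) : p ≤ X ^ 2 := by
  have hX0 : 0 < X := by linarith
  have hp0 : 0 < p := by linarith
  obtain ⟨a, ha⟩ : ∃ a : ℕ, a = m * (m - 1) / 2 := ⟨_, rfl⟩
  have ha2 : 2 * a = m * (m - 1) := by
    rw [ha]
    exact Nat.mul_div_cancel' (Nat.even_mul_pred_self m).two_dvd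
  rw [← ha] at hw
  have hN1 : (1 : ℝ) ≤ (N : ℝ) ^ (m + 1) := one_le_pow₀ (by exact_mod_cast hN)
  have h1 : p ^ (m ^ 2) ≤ p ^ a * X ^ (m + 1) := by
    have h2 : p ^ (m ^ 2) ≤ (N : ℝ) ^ (m + 1) * p ^ (m ^ 2) :=
      le_mul_of_one_le_left (by positivity) hN1
    exact h2.trans (h.trans (mul_le_mul_of_nonneg_right hw (by positivity)))
  have h2 : (p ^ (m ^ 2)) ^ 2 ≤ (p ^ a * X ^ (m + 1)) ^ 2 :=
    pow_le_pow_left₀ (by positivity) h1 2
  have hmm : m * (m - 1) + m * (m + 1) = m ^ 2 * 2 := by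
    obtain ⟨q, rfl⟩ : ∃ q, m = q + 1 := ⟨m - 1, by omega⟩
    simp only [Nat.add_sub_cancel]
    ring
  have h3 : (p ^ (m ^ 2)) ^ 2 = p ^ (m * (m - 1)) * (p ^ m) ^ (m + 1) := by
    rw [← pow_mul, ← pow_mul, ← pow_add, hmm]
  have h4 : (p ^ a * X ^ (m + 1)) ^ 2 = p ^ (m * (m - 1)) * (X ^ 2) ^ (m + 1) := by
    rw [mul_pow, ← pow_mul, mul_comm a 2, ha2, ← pow_mul, ← pow_mul, mul_comm (m + 1) 2]
  rw [h3, h4] at h2
  have h5 : (p ^ m) ^ (m + 1) ≤ (X ^ 2) ^ (m + 1) :=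
    le_of_mul_le_mul_left h2 (by positivity)
  have h6 : p ^ m ≤ X ^ 2 := le_of_pow_le_pow_left₀ (by omega) (by positivity) h5
  have h7 : p ^ 1 ≤ p ^ m := pow_le_pow_right₀ hp hm
  rw [pow_one] at h7
  exact h7.trans h6

open Classical in
/-- a sum over two families of blocks -/
lemma sum_blk {S : Type} [Fintype S] (c : S → Prop) (a : S → ℝ) (ha : ∀ i, 0 ≤ a i)
    (b : ℕ → ℕ → S → Prop) (K L : ℕ)
    (h : ∀ i, c i → ∃ k ∈ Finset.range K, ∃ l ∈ Finset.range L, b k l i) :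
    ∑ i ∈ Finset.univ.filter c, a i ≤ ∑ k ∈ Finset.range K, ∑ l ∈ Finset.range L,
      ∑ i ∈ Finset.univ.filter (fun i => c i ∧ b k l i), a i := by
  have e0 : ∑ k ∈ Finset.range K, ∑ l ∈ Finset.range L,
      ∑ i ∈ Finset.univ.filter (fun i => c i ∧ b k l i), a i =
      ∑ i, ∑ k ∈ Finset.range K, ∑ l ∈ Finset.range L, if c i ∧ b k l i then a i else 0 := by
    rw [Finset.sum_comm (s := Finset.univ)]
    refine Finset.sum_congr rfl fun k _ => ?_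
    rw [Finset.sum_comm (s := Finset.univ)]
    refine Finset.sum_congr rfl fun l _ => ?_
    exact Finset.sum_filter _ _
  rw [e0, Finset.sum_filter]
  refine Finset.sum_le_sum fun i _ => ?_
  have hnn : ∀ k l, 0 ≤ (if c i ∧ b k l i then a i else 0) := by
    intro k l
    split_ifs
    · exact ha i
    · exact le_rfl
  by_cases hi : c i
  · rw [if_pos hi]
    obtain ⟨k, hk, l, hl, hb⟩ := h i hi
    have h1 : a i = if c i ∧ b k l i then a i else 0 := (if_pos ⟨hi, hb⟩).symm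
    have h2 : (if c i ∧ b k l i then a i else 0) ≤
        ∑ l ∈ Finset.range L, if c i ∧ b k l i then a i else 0 :=
      Finset.single_le_sum (f := fun l => if c i ∧ b k l i then a i else 0)
        (fun l _ => hnn k l) hl
    have h3 : (∑ l ∈ Finset.range L, if c i ∧ b k l i then a i else 0) ≤
        ∑ k ∈ Finset.range K, ∑ l ∈ Finset.range L, if c i ∧ b k l i then a i else 0 :=
      Finset.single_le_sum (f := fun k => ∑ l ∈ Finset.range L, if c i ∧ b k l i then a i else 0)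
        (fun k _ => Finset.sum_nonneg fun l _ => hnn k l) hk
    exact h1.le.trans (h2.trans h3)
  · rw [if_neg hi]
    exact Finset.sum_nonneg fun k _ => Finset.sum_nonneg fun l _ => hnn k l

open Classical in
/-- the sum over the universal family, with weights in the ordering -/
theorem universal_sum_w (m : ℕ) (hm : 1 ≤ m) (ε : ℝ) (hε : 0 < ε) : ∃ (e1 C : ℝ), 0 < e1 ∧
    0 < C ∧ ∀ (C1 : ℝ), 0 ≤ C1 → ∀ (n0 : ℕ), 1 ≤ n0 → ∀ (S : ℕ → Type) [∀ N, Fintype (S N)]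
      (P w a : ∀ N : ℕ, S N → ℝ),
    (∀ N : ℕ, n0 ≤ N → ∀ i, 1 ≤ P N i ∧ 1 ≤ w N i ∧ w N i ≤ P N i ^ (m * (m - 1) / 2) ∧
      0 ≤ a N i) →
    (∀ N : ℕ, n0 ≤ N → ∀ Q : ℝ, 1 ≤ Q →
      ∑ i ∈ Finset.univ.filter (fun i : S N => P N i ≤ Q), w N i * a N i ≤
        C1 * ((N : ℝ) * Q) ^ e1 * ((N : ℝ) ^ m * Q ^ (m ^ 2))) →
    ∀ X : ℝ, 1 ≤ X →
      ∑ N ∈ Finset.Icc n0 ⌊X⌋₊, ∑ i ∈ Finset.univ.filter
        (fun i : S N => (N : ℝ) ^ (m + 1) * P N i ^ (m ^ 2) ≤ w N i * X ^ (m + 1)), a N i ≤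
        C * C1 * X ^ ((m : ℝ) + 1 + ε) := by
  obtain ⟨e1, he1, he1ε⟩ : ∃ e1 : ℝ, 0 < e1 ∧ 6 * e1 ≤ ε :=
    ⟨ε / 6, by positivity, by linarith⟩
  obtain ⟨CL, hCL, hlog⟩ := log_le_pow e1 he1
  obtain ⟨B, hB⟩ : ∃ B : ℕ, B = 2 * (m * (m - 1) / 2) + 2 := ⟨_, rfl⟩
  have hB2 : 2 ≤ B := by omega
  refine ⟨e1, (2 * B + 2) ^ 2 * CL ^ 3 * (2 ^ e1 * 2 ^ (m ^ 2 + 1)), he1, by positivity, ?_⟩
  intro C1 hC1 n0 hn0 S _ P w a hF hS X hX
  have hX0 : 0 < X := by linarith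
  have hlX : 0 ≤ Real.log X := Real.log_nonneg hX
  obtain ⟨K, hK⟩ : ∃ K : ℕ, K = ⌊(B : ℝ) * (2 * Real.log X)⌋₊ + 2 := ⟨_, rfl⟩
  have hKle : (K : ℝ) ≤ (2 * B + 2) * (CL * X ^ e1) := by
    have h1 : (⌊(B : ℝ) * (2 * Real.log X)⌋₊ : ℝ) ≤ (B : ℝ) * (2 * Real.log X) :=
      Nat.floor_le (by positivity)
    have h2 : (K : ℝ) ≤ (2 * B + 2) * (1 + Real.log X) := by
      rw [hK]
      push_cast
      nlinarith
    exact h2.trans (mul_le_mul_of_nonneg_left (hlog X hX) (by positivity))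
  -- one level
  have key : ∀ N ∈ Finset.Icc n0 ⌊X⌋₊, ∑ i ∈ Finset.univ.filter
      (fun i : S N => (N : ℝ) ^ (m + 1) * P N i ^ (m ^ 2) ≤ w N i * X ^ (m + 1)), a N i ≤
      (K : ℝ) ^ 2 * (C1 * (2 ^ e1 * X ^ (3 * e1)) * 2 ^ (m ^ 2 + 1) * X ^ (m + 1)) *
        (1 / (N : ℝ)) := by
    intro N hN
    obtain ⟨hN1', hNX⟩ := Finset.mem_Icc.1 hN
    have hN1 : 1 ≤ N := hn0.trans hN1'
    have hNX' : (N : ℝ) ≤ X := (Nat.le_floor_iff hX0.le).1 hNX
    have hN0 : (0 : ℝ) < N := by exact_mod_cast hN1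
    have hNr : (1 : ℝ) ≤ N := by exact_mod_cast hN1
    have hsz : ∀ i : S N, (N : ℝ) ^ (m + 1) * P N i ^ (m ^ 2) ≤ w N i * X ^ (m + 1) →
        P N i ≤ X ^ 2 := by
      intro i hi
      obtain ⟨h1, h2, h3, h4⟩ := hF N hN1' i
      exact size_le hm hN1 hX h1 h3 hi
    have hblk := sum_blk (fun i : S N => (N : ℝ) ^ (m + 1) * P N i ^ (m ^ 2) ≤
        w N i * X ^ (m + 1)) (a N) (fun i => (hF N hN1' i).2.2.2)
      (fun k l i => ((2 : ℝ) ^ k / 2 < P N i ∧ P N i ≤ (2 : ℝ) ^ k) ∧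
        ((2 : ℝ) ^ l / 2 < w N i ∧ w N i ≤ (2 : ℝ) ^ l)) K K (by
        intro i hi
        obtain ⟨h1, h2, h3, h4⟩ := hF N hN1' i
        have h5 := hsz i hi
        obtain ⟨k, hk1, hk2⟩ := block_ex (P N i) h1
        obtain ⟨l, hl1, hl2⟩ := block_ex (w N i) h2
        refine ⟨k, Finset.mem_range.2 ?_, l, Finset.mem_range.2 ?_, ⟨hk1, hk2⟩, hl1, hl2⟩
        · rw [hK]
          exact blk_lt hX hk1 (h5.trans (pow_le_pow_right₀ hX hB2))
        · rw [hK]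
          refine blk_lt hX hl1 (h3.trans ?_)
          calc P N i ^ (m * (m - 1) / 2) ≤ (X ^ 2) ^ (m * (m - 1) / 2) :=
                pow_le_pow_left₀ (by linarith) h5 _
            _ = X ^ (2 * (m * (m - 1) / 2)) := by rw [← pow_mul]
            _ ≤ X ^ B := pow_le_pow_right₀ hX (by omega))
    refine hblk.trans ?_
    have hone : ∀ k ∈ Finset.range K, ∀ l ∈ Finset.range K,
        ∑ i ∈ Finset.univ.filter (fun i : S N => ((N : ℝ) ^ (m + 1) * P N i ^ (m ^ 2) ≤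
          w N i * X ^ (m + 1)) ∧ ((2 : ℝ) ^ k / 2 < P N i ∧ P N i ≤ (2 : ℝ) ^ k) ∧
          ((2 : ℝ) ^ l / 2 < w N i ∧ w N i ≤ (2 : ℝ) ^ l)), a N i ≤
        C1 * (2 ^ e1 * X ^ (3 * e1)) * 2 ^ (m ^ 2 + 1) * X ^ (m + 1) * (1 / (N : ℝ)) := by
      intro k _ l _
      rcases Finset.eq_empty_or_nonempty (Finset.univ.filter (fun i : S N =>
          ((N : ℝ) ^ (m + 1) * P N i ^ (m ^ 2) ≤
          w N i * X ^ (m + 1)) ∧ ((2 : ℝ) ^ k / 2 < P N i ∧ P N i ≤ (2 : ℝ) ^ k) ∧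
          ((2 : ℝ) ^ l / 2 < w N i ∧ w N i ≤ (2 : ℝ) ^ l))) with h0 | ⟨i0, hi0⟩
      · rw [h0, Finset.sum_empty]
        positivity
      obtain ⟨hc0, ⟨hk1, hk2⟩, hl1, hl2⟩ := (Finset.mem_filter.1 hi0).2
      obtain ⟨q, hq⟩ : ∃ q : ℝ, q = (2 : ℝ) ^ k / 2 := ⟨_, rfl⟩
      obtain ⟨v, hv⟩ : ∃ v : ℝ, v = (2 : ℝ) ^ l := ⟨_, rfl⟩
      have hq0 : 0 < q := by rw [hq]; positivity
      have hv0 : 0 < v := by rw [hv]; positivity
      have h2k : (2 : ℝ) ^ k = 2 * q := by rw [hq]; ring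
      rw [← hq] at hk1
      rw [← hv] at hl1 hl2
      rw [h2k] at hk2
      -- the weighted sum
      have h1 : ∑ i ∈ Finset.univ.filter (fun i : S N => ((N : ℝ) ^ (m + 1) * P N i ^ (m ^ 2) ≤
          w N i * X ^ (m + 1)) ∧ ((2 : ℝ) ^ k / 2 < P N i ∧ P N i ≤ (2 : ℝ) ^ k) ∧
          ((2 : ℝ) ^ l / 2 < w N i ∧ w N i ≤ (2 : ℝ) ^ l)), a N i ≤
          ∑ i ∈ Finset.univ.filter (fun i : S N => P N i ≤ (2 : ℝ) ^ k),
            (2 / v) * (w N i * a N i) := by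
        refine (Finset.sum_le_sum (g := fun i => (2 / v) * (w N i * a N i)) fun i hi => ?_).trans
          (Finset.sum_le_sum_of_subset_of_nonneg ?_ ?_)
        · obtain ⟨_, _, hl, _⟩ := (Finset.mem_filter.1 hi).2
          rw [← hv] at hl
          have ha := (hF N hN1' i).2.2.2
          have h2 : 1 ≤ 2 / v * w N i := by
            rw [div_mul_eq_mul_div, le_div_iff₀ hv0]
            linarith
          calc a N i = 1 * a N i := (one_mul _).symm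
            _ ≤ 2 / v * w N i * a N i := mul_le_mul_of_nonneg_right h2 ha
            _ = _ := by ring
        · intro i hi
          obtain ⟨_, ⟨_, hk⟩, _⟩ := (Finset.mem_filter.1 hi).2
          exact Finset.mem_filter.2 ⟨Finset.mem_univ _, hk⟩
        · intro i _ _
          obtain ⟨_, hw1, _, ha⟩ := hF N hN1' i
          have : 0 ≤ w N i := by linarith
          positivity
      refine h1.trans ?_
      rw [← Finset.mul_sum]
      have h2 := hS N hN1' ((2 : ℝ) ^ k) (one_le_pow₀ (by norm_num))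
      rw [h2k] at h2 ⊢
      refine (mul_le_mul_of_nonneg_left h2 (by positivity)).trans ?_
      -- the size
      have h3 : q ≤ X ^ 2 := hk1.le.trans (hsz i0 hc0)
      have h4 : ((N : ℝ) * (2 * q)) ^ e1 ≤ 2 ^ e1 * X ^ (3 * e1) := by
        have h5 : (N : ℝ) * (2 * q) ≤ 2 * X ^ 3 := by
          calc (N : ℝ) * (2 * q) ≤ X * (2 * X ^ 2) :=
                mul_le_mul hNX' (by linarith) (by positivity) hX0.le
            _ = 2 * X ^ 3 := by ring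
        have h6 : (2 : ℝ) ^ e1 * X ^ (3 * e1) = (2 * X ^ 3) ^ e1 := by
          rw [Real.mul_rpow (by norm_num) (by positivity), ← Real.rpow_natCast X 3,
            ← Real.rpow_mul hX0.le]
          norm_num
        rw [h6]
        exact Real.rpow_le_rpow (by positivity) h5 he1.le
      have h5 : (N : ℝ) ^ (m + 1) * q ^ (m ^ 2) ≤ v * X ^ (m + 1) := by
        have h6 : q ^ (m ^ 2) ≤ P N i0 ^ (m ^ 2) := pow_le_pow_left₀ hq0.le hk1.le _
        calc (N : ℝ) ^ (m + 1) * q ^ (m ^ 2) ≤ (N : ℝ) ^ (m + 1) * P N i0 ^ (m ^ 2) :=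
              mul_le_mul_of_nonneg_left h6 (by positivity)
          _ ≤ w N i0 * X ^ (m + 1) := hc0
          _ ≤ v * X ^ (m + 1) := mul_le_mul_of_nonneg_right hl2 (by positivity)
      have h6 : (2 / v) * ((N : ℝ) ^ m * (2 * q) ^ (m ^ 2)) ≤
          2 ^ (m ^ 2 + 1) * X ^ (m + 1) * (1 / (N : ℝ)) := by
        have e : (2 / v) * ((N : ℝ) ^ m * (2 * q) ^ (m ^ 2)) =
            2 ^ (m ^ 2 + 1) * (((N : ℝ) ^ (m + 1) * q ^ (m ^ 2)) / v) * (1 / (N : ℝ)) := by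
          rw [mul_pow, pow_succ (2 : ℝ) (m ^ 2), pow_succ (N : ℝ) m]
          field_simp
        rw [e]
        refine mul_le_mul_of_nonneg_right (mul_le_mul_of_nonneg_left ?_ (by positivity))
          (by positivity)
        rw [div_le_iff₀ hv0, mul_comm _ v]
        exact h5
      calc (2 / v) * (C1 * ((N : ℝ) * (2 * q)) ^ e1 * ((N : ℝ) ^ m * (2 * q) ^ (m ^ 2))) =
          (C1 * ((N : ℝ) * (2 * q)) ^ e1) * ((2 / v) * ((N : ℝ) ^ m * (2 * q) ^ (m ^ 2))) := by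
            ring
        _ ≤ (C1 * (2 ^ e1 * X ^ (3 * e1))) * (2 ^ (m ^ 2 + 1) * X ^ (m + 1) * (1 / (N : ℝ))) :=
            mul_le_mul (mul_le_mul_of_nonneg_left h4 hC1) h6 (by positivity) (by positivity)
        _ = _ := by ring
    refine (Finset.sum_le_sum (g := fun _ => ∑ _l ∈ Finset.range K,
      C1 * (2 ^ e1 * X ^ (3 * e1)) * 2 ^ (m ^ 2 + 1) * X ^ (m + 1) * (1 / (N : ℝ)))
      fun k hk => Finset.sum_le_sum fun l hl => ?_).trans ?_
    · have h9 := hone k hk l hl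
      refine le_trans (le_of_eq (Finset.sum_congr ?_ fun _ _ => rfl)) h9
      ext i
      simp only [Finset.mem_filter]
    rw [Finset.sum_const, Finset.sum_const, Finset.card_range, nsmul_eq_mul, nsmul_eq_mul]
    refine le_of_eq ?_
    ring
  refine (Finset.sum_le_sum key).trans ?_
  rw [← Finset.mul_sum]
  -- the sum of 1 / N
  have h1 : ∑ N ∈ Finset.Icc n0 ⌊X⌋₊, (1 / (N : ℝ)) ≤ CL * X ^ e1 := by
    have h2 : ∑ N ∈ Finset.Icc n0 ⌊X⌋₊, (1 / (N : ℝ)) ≤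
        ∑ N ∈ Finset.Icc 1 ⌊X⌋₊, (1 / (N : ℝ)) := by
      refine Finset.sum_le_sum_of_subset_of_nonneg ?_ (fun i _ _ => by positivity)
      exact Finset.Icc_subset_Icc_left hn0
    have h3 : ∑ N ∈ Finset.Icc 1 ⌊X⌋₊, (1 / (N : ℝ)) ≤ 1 + Real.log X := by
      have h4 := harmonic_le_one_add_log ⌊X⌋₊
      have h5 : ((harmonic ⌊X⌋₊ : ℚ) : ℝ) = ∑ N ∈ Finset.Icc 1 ⌊X⌋₊, (1 / (N : ℝ)) := by
        rw [harmonic_eq_sum_Icc]
        push_cast
        refine Finset.sum_congr rfl (fun N _ => by rw [one_div])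
      rw [← h5]
      refine h4.trans ?_
      have h6 : (⌊X⌋₊ : ℝ) ≤ X := Nat.floor_le hX0.le
      have h7 : (1 : ℝ) ≤ (⌊X⌋₊ : ℝ) := by
        have : 1 ≤ ⌊X⌋₊ := Nat.le_floor (by exact_mod_cast hX)
        exact_mod_cast this
      have := Real.log_le_log (by linarith) h6
      linarith
    exact (h2.trans h3).trans (hlog X hX)
  have hK2 : (K : ℝ) ^ 2 ≤ ((2 * B + 2) * (CL * X ^ e1)) ^ 2 :=
    pow_le_pow_left₀ (by positivity) hKle 2
  calc (K : ℝ) ^ 2 * (C1 * (2 ^ e1 * X ^ (3 * e1)) * 2 ^ (m ^ 2 + 1) * X ^ (m + 1)) *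
      ∑ N ∈ Finset.Icc n0 ⌊X⌋₊, (1 / (N : ℝ)) ≤
      ((2 * B + 2) * (CL * X ^ e1)) ^ 2 *
        (C1 * (2 ^ e1 * X ^ (3 * e1)) * 2 ^ (m ^ 2 + 1) * X ^ (m + 1)) * (CL * X ^ e1) := by
        refine mul_le_mul (mul_le_mul_of_nonneg_right hK2 (by positivity)) h1 ?_ (by positivity)
        exact Finset.sum_nonneg fun N _ => by positivity
    _ = (2 * B + 2) ^ 2 * CL ^ 3 * (2 ^ e1 * 2 ^ (m ^ 2 + 1)) * C1 *
        (X ^ e1 * X ^ e1 * X ^ (3 * e1) * X ^ (m + 1) * X ^ e1) := by ring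
    _ ≤ (2 * B + 2) ^ 2 * CL ^ 3 * (2 ^ e1 * 2 ^ (m ^ 2 + 1)) * C1 *
        X ^ ((m : ℝ) + 1 + ε) := by
        refine mul_le_mul_of_nonneg_left ?_ (by positivity)
        rw [← Real.rpow_natCast X (m + 1), ← Real.rpow_add hX0, ← Real.rpow_add hX0,
          ← Real.rpow_add hX0, ← Real.rpow_add hX0]
        refine Real.rpow_le_rpow_of_exponent_le hX ?_
        push_cast
        linarith

end Pool.Agent.H68.GHK
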